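import Mathlib
import Pool.Agent.W786.Ls.Stm
set_option autoImplicit false

namespace Pool.Agent.W22.LS

open MeasureTheory Set Complex Pool.Agent.W786.Ls
open scoped ENNReal NNReal

/-- Tonelli for products -/
lemma lint_prod {E : Type*} [MeasurableSpace E] (μ : Measure E) [SigmaFinite μ] :
    ∀ (m : ℕ) (f : Fin m → E → ℝ≥0∞), (∀ j, Measurable (f j)) →
    ∫⁻ x : Fin m → E, ∏ j, f j (x j) ∂(Measure.pi fun _ => μ) = ∏ j, ∫⁻ y, f j y ∂μ := by
  intro m
  induction m with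
  | zero =>
    intro f _
    simp
  | succ m ih =>
    intro f hf
    have h1 := (measurePreserving_piFinSuccAbove (fun _ : Fin (m + 1) => μ) 0).symm
    have h2 := h1.lintegral_comp_emb (MeasurableEquiv.measurableEmbedding _)
      (fun x : Fin (m + 1) → E => ∏ j, f j (x j))
    rw [← h2, Fin.prod_univ_succ, ← ih (fun j => f j.succ) (fun j => hf _)]
    rw [← lintegral_prod_mul (f := f 0) (g := fun x : Fin m → E => ∏ j, f (Fin.succ j) (x j))
      (hf 0).aemeasurable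
      (Finset.measurable_prod _ fun j _ => (hf _).comp (measurable_pi_apply j)).aemeasurable]
    refine lintegral_congr fun z => ?_
    rw [Fin.prod_univ_succ]
    simp [MeasurableEquiv.piFinSuccAbove_symm_apply, Fin.insertNthEquiv]

/-- Hoelder's inequality on a finite measure -/
lemma holder0 {α : Type*} [MeasurableSpace α] (ν : Measure α) (g : α → ℝ≥0∞) (hg : Measurable g)
    (q : ℝ) (hq : 1 ≤ q) : (∫⁻ p, g p ∂ν) ^ q ≤ (ν univ) ^ (q - 1) * ∫⁻ p, g p ^ q ∂ν := by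
  have hq0 : 0 < q := by linarith
  have h := eLpNorm'_le_eLpNorm'_mul_rpow_measure_univ (μ := ν) (f := g) zero_lt_one hq
    hg.aestronglyMeasurable
  simp only [eLpNorm', enorm_eq_self, ENNReal.rpow_one, div_one] at h
  calc (∫⁻ p, g p ∂ν) ^ q ≤ ((∫⁻ a, g a ^ q ∂ν) ^ (1 / q) * ν univ ^ (1 - 1 / q)) ^ q := by
        gcongr
    _ = _ := by
        rw [ENNReal.mul_rpow_of_nonneg _ _ hq0.le, ← ENNReal.rpow_mul, ← ENNReal.rpow_mul,
          one_div, inv_mul_cancel₀ hq0.ne', ENNReal.rpow_one, mul_comm, sub_mul,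
          inv_mul_cancel₀ hq0.ne', one_mul]

lemma holderW {α : Type*} [MeasurableSpace α] (π : Measure α) (w g : α → ℝ≥0∞)
    (hw : Measurable w) (hg : Measurable g)
    (q : ℝ) (hq : 1 ≤ q) : (∫⁻ p, w p * g p ∂π) ^ q ≤
      (∫⁻ p, w p ∂π) ^ (q - 1) * ∫⁻ p, w p * g p ^ q ∂π := by
  have h := holder0 (π.withDensity w) g hg q hq
  rw [lintegral_withDensity_eq_lintegral_mul _ hw hg,
    lintegral_withDensity_eq_lintegral_mul _ hw (hg.pow_const q),
    withDensity_apply _ MeasurableSet.univ, Measure.restrict_univ] at h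
  exact h

lemma cont_ek {m : ℕ} (k : Fin m → ℤ) : Continuous (ek k) := by
  unfold ek
  fun_prop

lemma cont_trig {m : ℕ} (S : Finset (Fin m → ℤ)) (c : (Fin m → ℤ) → ℂ) :
    Continuous (trig S c) := by
  unfold trig
  exact continuous_finsetSum _ fun k _ => continuous_const.mul (cont_ek k)

lemma norm_ek {m : ℕ} (k : Fin m → ℤ) (v : Fin m → ℝ) : ‖ek k v‖ = 1 := by
  unfold ek
  rw [show (Real.pi * I * ((∑ j, (k j : ℝ) * v j : ℝ) : ℂ) : ℂ) =
    ((Real.pi * (∑ j, (k j : ℝ) * v j) : ℝ) : ℂ) * I by push_cast; ring]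
  exact Complex.norm_exp_ofReal_mul_I _

lemma norm_trig {m : ℕ} (S : Finset (Fin m → ℤ)) (c : (Fin m → ℤ) → ℂ) (v : Fin m → ℝ) :
    ‖trig S c v‖ ≤ ∑ k ∈ S, ‖c k‖ := by
  unfold trig
  refine (norm_sum_le _ _).trans (Finset.sum_le_sum fun k _ => ?_)
  rw [norm_mul, norm_ek, mul_one]

lemma norm_qe (y t v : ℝ) : ‖qe y t v‖ = 1 := by
  unfold qe
  rw [show (2 * Real.pi * I * ((v * y + v ^ 2 * t : ℝ) : ℂ) : ℂ) =
    ((2 * Real.pi * (v * y + v ^ 2 * t) : ℝ) : ℂ) * I by push_cast; ring]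
  exact Complex.norm_exp_ofReal_mul_I _

lemma norm_em {m : ℕ} (y : Fin m → ℝ) (t : ℝ) (v : Fin m → ℝ) : ‖em y t v‖ = 1 := by
  unfold Pool.Agent.W786.Ls.em
  rw [norm_prod]
  exact Finset.prod_eq_one fun i _ => norm_qe _ _ _

/-- joint measurability of the Gaussian weighted operator -/
lemma sm_GG {m : ℕ} (t : ℝ) (S : Finset (Fin m → ℤ)) (c : (Fin m → ℤ) → ℂ) :
    StronglyMeasurable fun z : (Fin m → ℝ) × (Fin m → ℝ) => GG t z.1 S c z.2 := by
  unfold GG
  have h : Continuous fun w : ((Fin m → ℝ) × (Fin m → ℝ)) × (Fin m → ℝ) =>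
      ((∏ j, Real.exp (-Real.pi * (w.2 j - w.1.1 j) ^ 2) : ℝ) : ℂ) * trig S c w.2 *
        em w.1.2 t w.2 := by
    have h1 := (cont_trig S c).comp
      (continuous_snd : Continuous fun w : ((Fin m → ℝ) × (Fin m → ℝ)) × (Fin m → ℝ) => w.2)
    refine Continuous.mul (Continuous.mul ?_ h1) ?_
    · fun_prop
    · unfold Pool.Agent.W786.Ls.em qe
      fun_prop
  exact h.stronglyMeasurable.integral_prod_right' (ν := volume)

lemma meas_GG {m : ℕ} (t : ℝ) (S : Finset (Fin m → ℤ)) (c : (Fin m → ℤ) → ℂ) :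
    Measurable fun z : (Fin m → ℝ) × (Fin m → ℝ) => GG t z.1 S c z.2 :=
  (sm_GG t S c).measurable

/-- one factor of the superposition -/
noncomputable def phi (H : ℝ → ℂ) (v : ℝ) (p : ℝ × ℝ) : ℂ :=
  ((Real.exp (-Real.pi * (v - p.1) ^ 2) : ℝ) : ℂ) * (H p.2 * cexp (2 * Real.pi * I * ((p.2 * v : ℝ) : ℂ)))

noncomputable def mu (A : ℝ) : Measure (ℝ × ℝ) :=
  (volume.restrict (Icc (-A) A)).prod (volume : Measure ℝ)

instance (A : ℝ) : SigmaFinite (mu A) := by unfold mu; infer_instance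

lemma int_phi (H : ℝ → ℂ) (A v : ℝ) : ∫ p, phi H v p ∂(mu A) = Th H v * (WW A v : ℂ) := by
  unfold phi mu Th WW
  rw [integral_prod_mul (μ := volume.restrict (Icc (-A) A)) (ν := volume)
    (fun a : ℝ => ((Real.exp (-Real.pi * (v - a) ^ 2) : ℝ) : ℂ))
    (fun η : ℝ => H η * cexp (2 * Real.pi * I * ((η * v : ℝ) : ℂ))), integral_complex_ofReal]
  ring

lemma cut_eq {m : ℕ} (H : ℝ → ℂ) (A : ℝ) (v : Fin m → ℝ) :
    cut H A v = ∫ p : Fin m → ℝ × ℝ, ∏ j, phi H (v j) (p j) ∂(Measure.pi fun _ => mu A) := by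
  unfold cut
  rw [integral_fintype_prod_eq_prod (fun j => phi H (v j))]
  exact Finset.prod_congr rfl fun j _ => (int_phi H A (v j)).symm

lemma qe_shift (y η t v : ℝ) :
    cexp (2 * Real.pi * I * ((η * v : ℝ) : ℂ)) * qe y t v = qe (y + η) t v := by
  unfold qe
  rw [← Complex.exp_add]
  congr 1
  push_cast
  ring

lemma point {m : ℕ} (H : ℝ → ℂ) (t : ℝ) (S : Finset (Fin m → ℤ)) (c : (Fin m → ℤ) → ℂ)
    (y v : Fin m → ℝ) (p : Fin m → ℝ × ℝ) :
    (∏ j, phi H (v j) (p j)) * trig S c v * em y t v = (∏ j, H (p j).2) *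
      (((∏ j, Real.exp (-Real.pi * (v j - (p j).1) ^ 2) : ℝ) : ℂ) * trig S c v *
        em (fun j => y j + (p j).2) t v) := by
  have h1 : (∏ j, phi H (v j) (p j)) * em y t v = (∏ j, H (p j).2) *
      (((∏ j, Real.exp (-Real.pi * (v j - (p j).1) ^ 2) : ℝ) : ℂ) *
        em (fun j => y j + (p j).2) t v) := by
    unfold Pool.Agent.W786.Ls.em
    rw [Complex.ofReal_prod, ← Finset.prod_mul_distrib, ← Finset.prod_mul_distrib,
      ← Finset.prod_mul_distrib]
    refine Finset.prod_congr rfl fun j _ => ?_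
    rw [← qe_shift]
    unfold phi
    ring
  calc _ = ((∏ j, phi H (v j) (p j)) * em y t v) * trig S c v := by ring
    _ = _ := by rw [h1]; ring

lemma inner {m : ℕ} (H : ℝ → ℂ) (t : ℝ) (S : Finset (Fin m → ℤ)) (c : (Fin m → ℤ) → ℂ)
    (y : Fin m → ℝ) (p : Fin m → ℝ × ℝ) :
    ∫ v : Fin m → ℝ, (∏ j, phi H (v j) (p j)) * trig S c v * em y t v = (∏ j, H (p j).2) *
      GG t (fun j => (p j).1) S c (fun j => y j + (p j).2) := by
  simp only [point]
  rw [integral_const_mul]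
  rfl

/-- the weight -/
noncomputable def wt {m : ℕ} (H : ℝ → ℂ) (p : Fin m → ℝ × ℝ) : ℝ≥0∞ := ∏ j, ‖H (p j).2‖ₑ

lemma meas_wt {m : ℕ} {H : ℝ → ℂ} (hH : Measurable H) :
    Measurable (wt H : (Fin m → ℝ × ℝ) → ℝ≥0∞) := by
  unfold wt
  exact Finset.measurable_prod _ fun j _ =>
    (hH.comp (measurable_snd.comp (measurable_pi_apply j))).enorm

lemma lint_wt {m : ℕ} {H : ℝ → ℂ} (hH : Measurable H) (A : ℝ) :
    ∫⁻ p : Fin m → ℝ × ℝ, wt H p ∂(Measure.pi fun _ => mu A) =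
      (ENNReal.ofReal (2 * A) * ∫⁻ η, ‖H η‖ₑ) ^ m := by
  unfold wt
  rw [lint_prod (mu A) m (fun _ p => ‖H p.2‖ₑ) (fun _ => (hH.comp measurable_snd).enorm),
    Finset.prod_const, Finset.card_univ, Fintype.card_fin]
  congr 1
  unfold mu
  have h := lintegral_prod_mul (μ := volume.restrict (Icc (-A) A)) (ν := (volume : Measure ℝ))
    (f := fun _ => (1 : ℝ≥0∞)) (g := fun η => ‖H η‖ₑ) aemeasurable_const hH.enorm.aemeasurable
  simp only [one_mul] at h
  rw [h, lintegral_one, Measure.restrict_apply_univ, Real.volume_Icc]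
  congr 2
  ring

lemma enorm_F {m : ℕ} (H : ℝ → ℂ) (t : ℝ) (S : Finset (Fin m → ℤ)) (c : (Fin m → ℤ) → ℂ)
    (y v : Fin m → ℝ) (p : Fin m → ℝ × ℝ) :
    ‖(∏ j, phi H (v j) (p j)) * trig S c v * em y t v‖ₑ ≤ wt H p *
      (ENNReal.ofReal (∑ k ∈ S, ‖c k‖) *
        ∏ j, ENNReal.ofReal (Real.exp (-Real.pi * (v j - (p j).1) ^ 2))) := by
  rw [point, enorm_mul, enorm_mul, enorm_mul]
  have h1 : ‖∏ j, H (p j).2‖ₑ = wt H p := by
    unfold wt
    rw [← ofReal_norm, norm_prod, ENNReal.ofReal_prod_of_nonneg (fun _ _ => norm_nonneg _)]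
    exact Finset.prod_congr rfl fun j _ => ofReal_norm _
  have h2 : ‖em (fun j => y j + (p j).2) t v‖ₑ = 1 := by
    rw [← ofReal_norm, norm_em, ENNReal.ofReal_one]
  have h3 : ‖((∏ j, Real.exp (-Real.pi * (v j - (p j).1) ^ 2) : ℝ) : ℂ)‖ₑ =
      ∏ j, ENNReal.ofReal (Real.exp (-Real.pi * (v j - (p j).1) ^ 2)) := by
    rw [← ofReal_norm, Complex.norm_real, Real.norm_of_nonneg
      (Finset.prod_nonneg fun _ _ => (Real.exp_pos _).le),
      ENNReal.ofReal_prod_of_nonneg (fun _ _ => (Real.exp_pos _).le)]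
  have h4 : ‖trig S c v‖ₑ ≤ ENNReal.ofReal (∑ k ∈ S, ‖c k‖) := by
    rw [← ofReal_norm]
    exact ENNReal.ofReal_le_ofReal (norm_trig S c v)
  rw [h1, h2, h3, mul_one, mul_comm (∏ j, _)]
  gcongr

lemma lint_gauss (a : ℝ) : ∫⁻ v : ℝ, ENNReal.ofReal (Real.exp (-Real.pi * (v - a) ^ 2)) = 1 := by
  rw [lintegral_sub_right_eq_self (fun v : ℝ => ENNReal.ofReal (Real.exp (-Real.pi * v ^ 2))) a]
  rw [← ofReal_integral_eq_lintegral_ofReal (integrable_exp_neg_mul_sq Real.pi_pos)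
    (Filter.Eventually.of_forall fun _ => (Real.exp_pos _).le), integral_gaussian, div_self
    Real.pi_pos.ne', Real.sqrt_one, ENNReal.ofReal_one]

lemma meas_phi {m : ℕ} {H : ℝ → ℂ} (hH : Measurable H) :
    Measurable fun z : (Fin m → ℝ) × (Fin m → ℝ × ℝ) => ∏ j, phi H (z.1 j) (z.2 j) := by
  unfold phi
  refine Finset.measurable_prod _ fun j _ => ?_
  have h1 : Measurable fun z : (Fin m → ℝ) × (Fin m → ℝ × ℝ) => H (z.2 j).2 :=
    hH.comp (measurable_snd.comp ((measurable_pi_apply j).comp measurable_snd))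
  refine Measurable.mul ?_ (h1.mul ?_)
  · fun_prop
  · fun_prop

lemma integrable_F {m : ℕ} {H : ℝ → ℂ} (hH : Measurable H) (hH2 : Integrable H) (A t : ℝ)
    (S : Finset (Fin m → ℤ)) (c : (Fin m → ℤ) → ℂ) (y : Fin m → ℝ) :
    Integrable (fun z : (Fin m → ℝ) × (Fin m → ℝ × ℝ) =>
      (∏ j, phi H (z.1 j) (z.2 j)) * trig S c z.1 * em y t z.1)
      (volume.prod (Measure.pi fun _ => mu A)) := by
  have hmeas : Measurable fun z : (Fin m → ℝ) × (Fin m → ℝ × ℝ) =>
      (∏ j, phi H (z.1 j) (z.2 j)) * trig S c z.1 * em y t z.1 := by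
    refine ((meas_phi hH).mul ((cont_trig S c).measurable.comp measurable_fst)).mul ?_
    unfold Pool.Agent.W786.Ls.em qe
    fun_prop
  refine ⟨hmeas.aestronglyMeasurable, ?_⟩
  unfold HasFiniteIntegral
  rw [lintegral_prod_symm _ hmeas.enorm.aemeasurable]
  calc _ ≤ ∫⁻ p : Fin m → ℝ × ℝ, wt H p * ENNReal.ofReal (∑ k ∈ S, ‖c k‖)
        ∂(Measure.pi fun _ => mu A) := by
        refine lintegral_mono fun p => ?_
        calc _ ≤ ∫⁻ v : Fin m → ℝ, wt H p * (ENNReal.ofReal (∑ k ∈ S, ‖c k‖) *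
              ∏ j, ENNReal.ofReal (Real.exp (-Real.pi * (v j - (p j).1) ^ 2))) :=
              lintegral_mono fun v => enorm_F H t S c y v p
          _ = _ := by
              have hm : ∀ j : Fin m, Measurable fun v : ℝ =>
                  ENNReal.ofReal (Real.exp (-Real.pi * (v - (p j).1) ^ 2)) := fun j => by fun_prop
              have hm2 : Measurable fun v : Fin m → ℝ =>
                  ∏ j, ENNReal.ofReal (Real.exp (-Real.pi * (v j - (p j).1) ^ 2)) :=
                Finset.measurable_prod _ fun j _ => (hm j).comp (measurable_pi_apply j)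
              rw [lintegral_const_mul _ (hm2.const_mul _), lintegral_const_mul _ hm2]
              have h := lint_prod (volume : Measure ℝ) m (fun j v =>
                ENNReal.ofReal (Real.exp (-Real.pi * (v - (p j).1) ^ 2))) hm
              rw [volume_pi, h]
              simp only [lint_gauss, Finset.prod_const_one, mul_one]
    _ = (ENNReal.ofReal (2 * A) * ∫⁻ η, ‖H η‖ₑ) ^ m * ENNReal.ofReal (∑ k ∈ S, ‖c k‖) := by
        rw [lintegral_mul_const _ (meas_wt hH), lint_wt hH]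
    _ < ∞ := by
        refine ENNReal.mul_lt_top (ENNReal.pow_lt_top (ENNReal.mul_lt_top ENNReal.ofReal_lt_top ?_))
          ENNReal.ofReal_lt_top
        exact hH2.2

/-- the smooth operator as a superposition -/
lemma superpos {m : ℕ} {H : ℝ → ℂ} (hH : Measurable H) (hH2 : Integrable H) (A t : ℝ)
    (S : Finset (Fin m → ℤ)) (c : (Fin m → ℤ) → ℂ) (y : Fin m → ℝ) :
    ∫ v : Fin m → ℝ, cut H A v * trig S c v * em y t v =
      ∫ p : Fin m → ℝ × ℝ, (∏ j, H (p j).2) *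
        GG t (fun j => (p j).1) S c (fun j => y j + (p j).2) ∂(Measure.pi fun _ => mu A) := by
  calc _ = ∫ v : Fin m → ℝ, ∫ p : Fin m → ℝ × ℝ,
        (∏ j, phi H (v j) (p j)) * trig S c v * em y t v ∂(Measure.pi fun _ => mu A) := by
        refine integral_congr_ae (Filter.Eventually.of_forall fun v => ?_)
        simp only
        rw [integral_mul_const, integral_mul_const, cut_eq]
    _ = ∫ p : Fin m → ℝ × ℝ, (∫ v : Fin m → ℝ,
        (∏ j, phi H (v j) (p j)) * trig S c v * em y t v) ∂(Measure.pi fun _ => mu A) :=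
        integral_integral_swap (integrable_F hH hH2 A t S c y)
    _ = _ := by simp only [inner]

lemma enorm_prodH {m : ℕ} (H : ℝ → ℂ) (p : Fin m → ℝ × ℝ) : ‖∏ j, H (p j).2‖ₑ = wt H p := by
  unfold wt
  rw [← ofReal_norm, norm_prod, ENNReal.ofReal_prod_of_nonneg (fun _ _ => norm_nonneg _)]
  exact Finset.prod_congr rfl fun j _ => ofReal_norm _

theorem main : MainStm := by
  intro m q H A t S c B hq hH hH2 hA hB
  set π : Measure (Fin m → ℝ × ℝ) := Measure.pi fun _ => mu A with hπ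
  have hmg : Measurable fun z : (Fin m → ℝ) × (Fin m → ℝ × ℝ) =>
      ‖GG t (fun j => (z.2 j).1) S c (fun j => z.1 j + (z.2 j).2)‖ₑ := by
    have h1 : Measurable fun z : (Fin m → ℝ) × (Fin m → ℝ × ℝ) =>
        ((fun j => (z.2 j).1 : Fin m → ℝ), (fun j => z.1 j + (z.2 j).2 : Fin m → ℝ)) := by
      fun_prop
    exact ((meas_GG t S c).comp h1).enorm
  have key : ∀ y : Fin m → ℝ, ‖∫ v : Fin m → ℝ, cut H A v * trig S c v * em y t v‖ₑ ^ q ≤
      (∫⁻ p, wt H p ∂π) ^ (q - 1) * ∫⁻ p, wt H p *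
        ‖GG t (fun j => (p j).1) S c (fun j => y j + (p j).2)‖ₑ ^ q ∂π := by
    intro y
    rw [superpos hH hH2]
    calc _ ≤ (∫⁻ p, wt H p * ‖GG t (fun j => (p j).1) S c (fun j => y j + (p j).2)‖ₑ ∂π) ^ q := by
          refine ENNReal.rpow_le_rpow ((enorm_integral_le_lintegral_enorm _).trans ?_) (by linarith)
          refine le_of_eq (lintegral_congr fun p => ?_)
          rw [enorm_mul, enorm_prodH]
      _ ≤ _ := holderW π _ _ (meas_wt hH) (hmg.comp measurable_prodMk_left) q hq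
  have hM := lint_wt (m := m) hH A
  calc _ ≤ ∫⁻ y : Fin m → ℝ, (∫⁻ p, wt H p ∂π) ^ (q - 1) * ∫⁻ p, wt H p *
        ‖GG t (fun j => (p j).1) S c (fun j => y j + (p j).2)‖ₑ ^ q ∂π := lintegral_mono key
    _ = (∫⁻ p, wt H p ∂π) ^ (q - 1) * ∫⁻ y : Fin m → ℝ, ∫⁻ p, wt H p *
        ‖GG t (fun j => (p j).1) S c (fun j => y j + (p j).2)‖ₑ ^ q ∂π := by
        refine lintegral_const_mul _ ?_
        refine Measurable.lintegral_prod_right' (f := fun z : (Fin m → ℝ) × (Fin m → ℝ × ℝ) =>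
          wt H z.2 * ‖GG t (fun j => (z.2 j).1) S c (fun j => z.1 j + (z.2 j).2)‖ₑ ^ q) ?_
        exact ((meas_wt hH).comp measurable_snd).mul (hmg.pow_const q)
    _ = (∫⁻ p, wt H p ∂π) ^ (q - 1) * ∫⁻ p, (∫⁻ y : Fin m → ℝ, wt H p *
        ‖GG t (fun j => (p j).1) S c (fun j => y j + (p j).2)‖ₑ ^ q) ∂π := by
        rw [lintegral_lintegral_swap]
        exact (((meas_wt hH).comp measurable_snd).mul (hmg.pow_const q)).aemeasurable
    _ ≤ (∫⁻ p, wt H p ∂π) ^ (q - 1) * ∫⁻ p, wt H p * B ∂π := by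
        gcongr with p
        have hm2 : Measurable fun y : Fin m → ℝ =>
            ‖GG t (fun j => (p j).1) S c (fun j => y j + (p j).2)‖ₑ ^ q :=
          (hmg.comp measurable_prodMk_right).pow_const q
        rw [lintegral_const_mul _ hm2]
        gcongr
        have h := lintegral_add_right_eq_self (μ := (volume : Measure (Fin m → ℝ)))
          (fun y : Fin m → ℝ => ‖GG t (fun j => (p j).1) S c y‖ₑ ^ q) (fun j => (p j).2)
        exact le_trans (le_of_eq h) (hB _)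
    _ = (∫⁻ p, wt H p ∂π) ^ q * B := by
        rw [lintegral_mul_const _ (meas_wt hH), ← mul_assoc]
        congr 1
        nth_rw 2 [← ENNReal.rpow_one (∫⁻ p, wt H p ∂π)]
        rw [← ENNReal.rpow_add_of_nonneg _ _ (by linarith) zero_le_one]
        congr 1
        ring
    _ = _ := by rw [hM]

end Pool.Agent.W22.LS
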