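import Mathlib
import Pool.Agent.W786.Ls.Stm
set_option autoImplicit false

namespace Pool.Agent.W22.LS

open MeasureTheory Set Complex Pool.Agent.W786.Ls
open scoped ENNReal NNReal FourierTransform

noncomputable def tent (a v : ℝ) : ℝ := max 0 (a - |v|)

lemma tent_cont (a : ℝ) : Continuous (tent a) := by
  unfold tent
  fun_prop

lemma tent_supp (a : ℝ) : HasCompactSupport (tent a) := by
  refine HasCompactSupport.intro (isCompact_Icc : IsCompact (Icc (-a) a)) fun v hv => ?_
  unfold tent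
  refine max_eq_left ?_
  by_contra h
  push Not at h
  exact hv (abs_le.mp (by linarith))

lemma tent_int (a : ℝ) : Integrable (tent a) :=
  (tent_cont a).integrable_of_hasCompactSupport (tent_supp a)

/-- the real integral -/
lemma tent_half {a x : ℝ} (ha : 0 ≤ a) (hx : x ≠ 0) :
    ∫ v in Ioi (0 : ℝ), tent a v * Real.cos (2 * Real.pi * x * v) =
      (1 - Real.cos (2 * Real.pi * x * a)) / (2 * Real.pi * x) ^ 2 := by
  set c : ℝ := 2 * Real.pi * x with hc
  have hc0 : c ≠ 0 := by rw [hc]; positivity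
  have h1 : ∫ v in Ioi (0 : ℝ), tent a v * Real.cos (c * v) =
      ∫ v in Ioc (0 : ℝ) a, tent a v * Real.cos (c * v) := by
    rw [← Ioc_union_Ioi_eq_Ioi ha, setIntegral_union]
    · rw [setIntegral_eq_zero_of_forall_eq_zero (t := Ioi a), add_zero]
      intro v hv
      have : tent a v = 0 := by
        unfold tent
        refine max_eq_left ?_
        have := hv.out
        rw [abs_of_pos (by linarith)]
        linarith
      rw [this, zero_mul]
    · exact Ioc_disjoint_Ioi le_rfl
    · exact measurableSet_Ioi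
    · exact (((tent_cont a).mul (by fun_prop)).integrable_of_hasCompactSupport
        (tent_supp a).mul_right).integrableOn
    · exact (((tent_cont a).mul (by fun_prop)).integrable_of_hasCompactSupport
        (tent_supp a).mul_right).integrableOn
  rw [h1, ← intervalIntegral.integral_of_le ha]
  have h2 : ∫ v in (0 : ℝ)..a, tent a v * Real.cos (c * v) =
      ∫ v in (0 : ℝ)..a, (a - v) * Real.cos (c * v) := by
    refine intervalIntegral.integral_congr fun v hv => ?_
    rw [uIcc_of_le ha] at hv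
    simp only [tent]
    rw [abs_of_nonneg hv.1, max_eq_right (by linarith [hv.2])]
  rw [h2, intervalIntegral.integral_eq_sub_of_hasDerivAt
    (f := fun v => (a - v) * Real.sin (c * v) / c - Real.cos (c * v) / c ^ 2)]
  · simp
    field_simp
    ring
  · intro v _
    have h3 : HasDerivAt (fun v : ℝ => Real.sin (c * v)) (Real.cos (c * v) * c) v := by
      simpa using ((hasDerivAt_id v).const_mul c).sin
    have h4 : HasDerivAt (fun v : ℝ => Real.cos (c * v)) (-Real.sin (c * v) * c) v := by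
      simpa using ((hasDerivAt_id v).const_mul c).cos
    have h5 := (((hasDerivAt_id v).const_sub a).mul h3).div_const c |>.sub (h4.div_const (c ^ 2))
    refine h5.congr_deriv ?_
    simp only [id]
    field_simp
    ring
  · exact Continuous.intervalIntegrable (by fun_prop) _ _

lemma tent_ft {a x : ℝ} (ha : 0 ≤ a) (hx : x ≠ 0) :
    ∫ v : ℝ, cexp (((-2 * Real.pi * v * x : ℝ) : ℂ) * I) • ((tent a v : ℝ) : ℂ) =
      (((1 - Real.cos (2 * Real.pi * x * a)) / (2 * (Real.pi * x) ^ 2) : ℝ) : ℂ) := by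
  have hi1 : Integrable fun v => tent a v * Real.cos (2 * Real.pi * x * v) :=
    ((tent_cont a).mul (by fun_prop)).integrable_of_hasCompactSupport (tent_supp a).mul_right
  have hi2 : Integrable fun v => tent a v * Real.sin (2 * Real.pi * x * v) :=
    ((tent_cont a).mul (by fun_prop)).integrable_of_hasCompactSupport (tent_supp a).mul_right
  have h1 : ∀ v : ℝ, cexp (((-2 * Real.pi * v * x : ℝ) : ℂ) * I) • ((tent a v : ℝ) : ℂ) =
      ((tent a v * Real.cos (2 * Real.pi * x * v) : ℝ) : ℂ) -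
        ((tent a v * Real.sin (2 * Real.pi * x * v) : ℝ) : ℂ) * I := by
    intro v
    rw [Complex.exp_mul_I, ← Complex.ofReal_cos, ← Complex.ofReal_sin,
      show -2 * Real.pi * v * x = -(2 * Real.pi * x * v) by ring, Real.cos_neg, Real.sin_neg]
    push_cast
    simp only [smul_eq_mul]
    ring
  simp only [h1]
  have hi1' : Integrable fun v => ((tent a v * Real.cos (2 * Real.pi * x * v) : ℝ) : ℂ) :=
    hi1.ofReal
  have hi2' : Integrable fun v => ((tent a v * Real.sin (2 * Real.pi * x * v) : ℝ) : ℂ) * I :=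
    (hi2.ofReal (𝕜 := ℂ)).mul_const I
  rw [integral_sub hi1' hi2', integral_mul_const,
    integral_complex_ofReal, integral_complex_ofReal]
  have h2 : ∫ v, tent a v * Real.sin (2 * Real.pi * x * v) = 0 := by
    have h3 := integral_neg_eq_self (fun v => tent a v * Real.sin (2 * Real.pi * x * v)) volume
    have h4 : (fun v : ℝ => tent a (-v) * Real.sin (2 * Real.pi * x * (-v))) =
        fun v => -(tent a v * Real.sin (2 * Real.pi * x * v)) := by
      funext v
      rw [mul_neg, Real.sin_neg]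
      unfold tent
      rw [abs_neg]
      ring
    rw [h4, integral_neg] at h3
    linarith
  have h3 : ∫ v, tent a v * Real.cos (2 * Real.pi * x * v) =
      (1 - Real.cos (2 * Real.pi * x * a)) / (2 * (Real.pi * x) ^ 2) := by
    have h4 := integral_comp_abs (f := fun v => tent a v * Real.cos (2 * Real.pi * x * v))
    rw [tent_half ha hx] at h4
    have h5 : (fun v : ℝ => tent a |v| * Real.cos (2 * Real.pi * x * |v|)) =
        fun v => tent a v * Real.cos (2 * Real.pi * x * v) := by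
      funext v
      have : tent a |v| = tent a v := by
        unfold tent
        rw [abs_abs]
      rw [this]
      congr 1
      rcases abs_choice v with h | h <;> rw [h]
      rw [mul_neg, Real.cos_neg]
    rw [h5] at h4
    rw [h4]
    field_simp
  rw [h2, h3]
  simp

/-- the trapezoid -/
noncomputable def trz (ρ v : ℝ) : ℝ := (tent 1 v - tent (1 - ρ) v) / ρ

lemma trz_cont (ρ : ℝ) : Continuous (trz ρ) :=
  ((tent_cont 1).sub (tent_cont _)).div_const ρ

lemma trz_int (ρ : ℝ) : Integrable (trz ρ) :=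
  ((tent_int 1).sub (tent_int _)).div_const ρ

lemma trz_one {ρ v : ℝ} (hρ : 0 < ρ) (hv : |v| ≤ 1 - ρ) : trz ρ v = 1 := by
  unfold trz tent
  rw [max_eq_right (by linarith), max_eq_right (by linarith), div_eq_one_iff_eq hρ.ne']
  ring

lemma trz_zero {ρ v : ℝ} (hρ : 0 < ρ) (hv : 1 ≤ |v|) : trz ρ v = 0 := by
  unfold trz tent
  rw [max_eq_left (by linarith), max_eq_left (by linarith)]
  simp

lemma trz_abs {ρ : ℝ} (hρ : 0 < ρ) (v : ℝ) : |trz ρ v| ≤ 1 := by
  unfold trz tent
  rw [abs_div, abs_of_pos hρ, div_le_one hρ, abs_le]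
  constructor
  · have h : max 0 (1 - ρ - |v|) ≤ max 0 (1 - |v|) := max_le_max le_rfl (by linarith)
    linarith
  · rcases le_total 0 (1 - |v|) with h | h
    · rw [max_eq_right h]
      have := le_max_right 0 (1 - ρ - |v|)
      linarith
    · rw [max_eq_left h]
      have := le_max_left 0 (1 - ρ - |v|)
      linarith

lemma trz_ft {ρ x : ℝ} (hρ : 0 < ρ) (hρ1 : ρ ≤ 1) (hx : x ≠ 0) :
    𝓕 (fun v : ℝ => ((trz ρ v : ℝ) : ℂ)) x =
      (((Real.cos (2 * Real.pi * x * (1 - ρ)) - Real.cos (2 * Real.pi * x * 1)) /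
        (2 * ρ * (Real.pi * x) ^ 2) : ℝ) : ℂ) := by
  rw [Real.fourier_real_eq_integral_exp_smul]
  have h1 : ∀ v : ℝ, cexp (((-2 * Real.pi * v * x : ℝ) : ℂ) * I) • ((trz ρ v : ℝ) : ℂ) =
      (cexp (((-2 * Real.pi * v * x : ℝ) : ℂ) * I) • ((tent 1 v : ℝ) : ℂ) -
        cexp (((-2 * Real.pi * v * x : ℝ) : ℂ) * I) • ((tent (1 - ρ) v : ℝ) : ℂ)) / (ρ : ℂ) := by
    intro v
    unfold trz
    push_cast
    simp only [smul_eq_mul]
    ring
  have hi : ∀ a : ℝ, Integrable fun v : ℝ =>
      cexp (((-2 * Real.pi * v * x : ℝ) : ℂ) * I) • ((tent a v : ℝ) : ℂ) := by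
    intro a
    have hc : Continuous fun v : ℝ =>
      cexp (((-2 * Real.pi * v * x : ℝ) : ℂ) * I) • ((tent a v : ℝ) : ℂ) := by
      have := tent_cont a
      fun_prop
    refine Integrable.mono' (tent_int a) hc.aestronglyMeasurable
      (Filter.Eventually.of_forall fun v => ?_)
    rw [norm_smul, Complex.norm_exp_ofReal_mul_I, one_mul, Complex.norm_real, Real.norm_eq_abs,
      abs_of_nonneg]
    exact le_max_left _ _
  simp only [h1]
  rw [integral_div, integral_sub (hi 1) (hi (1 - ρ)), tent_ft zero_le_one hx,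
    tent_ft (by linarith) hx, ← Complex.ofReal_sub, ← Complex.ofReal_div]
  congr 1
  field_simp
  ring

/-- the pointwise bound -/
lemma closed_le {ρ x ε : ℝ} (hρ : 0 < ρ) (hρ1 : ρ ≤ 1) (hx : x ≠ 0) (hε : 0 < ε) (hε1 : ε ≤ 1) :
    |(Real.cos (2 * Real.pi * x * (1 - ρ)) - Real.cos (2 * Real.pi * x * 1)) /
        (2 * ρ * (Real.pi * x) ^ 2)| ≤ 8 * ρ ^ (-ε) * (1 + |x|) ^ (-(1 + ε)) := by
  have hπ := Real.pi_pos
  have hax : 0 < |x| := abs_pos.mpr hx
  have h1 : Real.cos (2 * Real.pi * x * (1 - ρ)) - Real.cos (2 * Real.pi * x * 1) =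
      2 * Real.sin (Real.pi * x * (2 - ρ)) * Real.sin (Real.pi * x * ρ) := by
    rw [Real.cos_sub_cos]
    rw [show (2 * Real.pi * x * (1 - ρ) + 2 * Real.pi * x * 1) / 2 = Real.pi * x * (2 - ρ) by ring,
      show (2 * Real.pi * x * (1 - ρ) - 2 * Real.pi * x * 1) / 2 = -(Real.pi * x * ρ) by ring,
      Real.sin_neg]
    ring
  set N : ℝ := |Real.sin (Real.pi * x * (2 - ρ))| * |Real.sin (Real.pi * x * ρ)| with hN
  have hN0 : 0 ≤ N := by positivity
  have h2 : |(Real.cos (2 * Real.pi * x * (1 - ρ)) - Real.cos (2 * Real.pi * x * 1)) /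
        (2 * ρ * (Real.pi * x) ^ 2)| = N / (ρ * (Real.pi * |x|) ^ 2) := by
    rw [h1, abs_div, abs_mul, abs_mul, abs_two]
    have : |2 * ρ * (Real.pi * x) ^ 2| = 2 * (ρ * (Real.pi * |x|) ^ 2) := by
      rw [abs_mul, abs_mul, abs_two, abs_of_pos hρ, abs_pow, abs_mul, abs_of_pos hπ]
      ring
    rw [this, mul_assoc, mul_div_mul_left _ _ two_ne_zero]
  rw [h2]
  have hb : |Real.sin (Real.pi * x * ρ)| ≤ Real.pi * |x| * ρ := by
    refine (Real.abs_sin_le_abs (x := Real.pi * x * ρ)).trans (le_of_eq ?_)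
    rw [abs_mul, abs_mul, abs_of_pos hπ, abs_of_pos hρ]
  have hρε : 1 ≤ ρ ^ (-ε) := Real.one_le_rpow_of_pos_of_le_one_of_nonpos hρ hρ1 (by linarith)
  rcases le_total |x| 1 with hx1 | hx1
  · have ha : |Real.sin (Real.pi * x * (2 - ρ))| ≤ Real.pi * |x| * 2 := by
      refine (Real.abs_sin_le_abs (x := Real.pi * x * (2 - ρ))).trans ?_
      rw [abs_mul, abs_mul, abs_of_pos hπ, abs_of_pos (by linarith : (0 : ℝ) < 2 - ρ)]
      have : (0 : ℝ) < Real.pi * |x| := by positivity
      nlinarith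
    have h3 : N / (ρ * (Real.pi * |x|) ^ 2) ≤ 2 := by
      rw [div_le_iff₀ (by positivity)]
      calc N ≤ (Real.pi * |x| * 2) * (Real.pi * |x| * ρ) := by
            rw [hN]; gcongr
        _ = _ := by ring
    have h4 : (1 : ℝ) / 4 ≤ (1 + |x|) ^ (-(1 + ε)) := by
      calc (1 : ℝ) / 4 = (2 : ℝ) ^ (-(2 : ℝ)) := by
            rw [Real.rpow_neg (by norm_num)]
            norm_num
        _ ≤ (2 : ℝ) ^ (-(1 + ε)) := by
            apply Real.rpow_le_rpow_of_exponent_le (by norm_num)
            linarith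
        _ ≤ (1 + |x|) ^ (-(1 + ε)) := by
            apply Real.rpow_le_rpow_of_nonpos (by positivity) (by linarith) (by linarith)
    calc _ ≤ (2 : ℝ) := h3
      _ = 8 * 1 * (1 / 4) := by norm_num
      _ ≤ _ := by gcongr
  · have h3 : N ≤ (Real.pi * |x| * ρ) ^ (1 - ε) := by
      have hN1 : N ≤ Real.pi * |x| * ρ := by
        calc N ≤ 1 * (Real.pi * |x| * ρ) := by
              rw [hN]; gcongr; exact Real.abs_sin_le_one _
          _ = _ := one_mul _
      have hN2 : N ≤ 1 := by
        calc N ≤ 1 * 1 := by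
              rw [hN]; gcongr <;> exact Real.abs_sin_le_one _
          _ = _ := one_mul _
      have hp : 0 < Real.pi * |x| * ρ := by positivity
      rcases le_total 1 (Real.pi * |x| * ρ) with h | h
      · exact hN2.trans (Real.one_le_rpow h (by linarith))
      · refine hN1.trans ?_
        calc Real.pi * |x| * ρ = (Real.pi * |x| * ρ) ^ (1 : ℝ) := (Real.rpow_one _).symm
          _ ≤ _ := Real.rpow_le_rpow_of_exponent_ge hp h (by linarith)
    have h4 : N / (ρ * (Real.pi * |x|) ^ 2) ≤ ρ ^ (-ε) * |x| ^ (-(1 + ε)) := by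
      rw [div_le_iff₀ (by positivity)]
      refine h3.trans ?_
      rw [Real.mul_rpow (by positivity) hρ.le, Real.mul_rpow hπ.le hax.le]
      have e1 : ρ ^ (-ε) * ρ = ρ ^ (1 - ε) := by
        nth_rw 2 [← Real.rpow_one ρ]
        rw [← Real.rpow_add hρ]
        congr 1
        ring
      have e2 : |x| ^ (-(1 + ε)) * |x| ^ 2 = |x| ^ (1 - ε) := by
        rw [← Real.rpow_natCast |x| 2, ← Real.rpow_add hax]
        congr 1
        push_cast
        ring
      have e3 : Real.pi ^ (1 - ε) ≤ Real.pi ^ 2 := by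
        rw [← Real.rpow_natCast Real.pi 2]
        apply Real.rpow_le_rpow_of_exponent_le
        · have := Real.pi_gt_three
          linarith
        · push_cast
          linarith
      calc Real.pi ^ (1 - ε) * |x| ^ (1 - ε) * ρ ^ (1 - ε) ≤
            Real.pi ^ 2 * |x| ^ (1 - ε) * ρ ^ (1 - ε) := by gcongr
        _ = _ := by
          rw [← e1, ← e2]
          ring
    have h5 : |x| ^ (-(1 + ε)) ≤ 4 * (1 + |x|) ^ (-(1 + ε)) := by
      have e1 : (2 * |x|) ^ (-(1 + ε)) ≤ (1 + |x|) ^ (-(1 + ε)) :=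
        Real.rpow_le_rpow_of_nonpos (by positivity) (by linarith) (by linarith)
      have e2 : |x| ^ (-(1 + ε)) = 2 ^ (1 + ε) * (2 * |x|) ^ (-(1 + ε)) := by
        rw [Real.mul_rpow (by norm_num) hax.le, ← mul_assoc, ← Real.rpow_add (by norm_num)]
        simp
      have e3 : (2 : ℝ) ^ (1 + ε) ≤ 4 := by
        calc (2 : ℝ) ^ (1 + ε) ≤ 2 ^ (2 : ℝ) := by
              apply Real.rpow_le_rpow_of_exponent_le (by norm_num)
              linarith
          _ = 4 := by norm_num
      rw [e2]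
      gcongr
    calc _ ≤ ρ ^ (-ε) * |x| ^ (-(1 + ε)) := h4
      _ ≤ ρ ^ (-ε) * (4 * (1 + |x|) ^ (-(1 + ε))) := by gcongr
      _ = 4 * ρ ^ (-ε) * (1 + |x|) ^ (-(1 + ε)) := by ring
      _ ≤ _ := by gcongr; norm_num

theorem trap : TrapStm := by
  intro ε hε hε1
  have hint : Integrable fun x : ℝ => (1 + ‖x‖) ^ (-(1 + ε)) :=
    integrable_one_add_norm (μ := (volume : Measure ℝ)) (by simp; exact hε)
  set G : ℝ≥0∞ := ∫⁻ x : ℝ, ENNReal.ofReal (8 * (1 + |x|) ^ (-(1 + ε))) with hG
  have hGt : G ≠ ∞ := by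
    have h := (hint.const_mul 8).2
    unfold HasFiniteIntegral at h
    refine ne_of_lt (lt_of_le_of_lt (le_of_eq ?_) h)
    refine lintegral_congr fun x => ?_
    rw [← ofReal_norm, Real.norm_of_nonneg (by positivity)]
    rfl
  refine ⟨G.toNNReal, fun ρ hρ hρ1 => ?_⟩
  rw [ENNReal.coe_toNNReal hGt]
  set H : ℝ → ℂ := 𝓕 (fun v : ℝ => ((trz ρ v : ℝ) : ℂ)) with hH
  have hTi : Integrable fun v : ℝ => ((trz ρ v : ℝ) : ℂ) := (trz_int ρ).ofReal
  have hTc : Continuous fun v : ℝ => ((trz ρ v : ℝ) : ℂ) :=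
    Complex.continuous_ofReal.comp (trz_cont ρ)
  have hHc : Continuous H :=
    VectorFourier.fourierIntegral_continuous Real.continuous_fourierChar
      (by exact continuous_inner) hTi
  have hbound : ∀ᵐ x : ℝ, ‖H x‖ ≤ 8 * ρ ^ (-ε) * (1 + |x|) ^ (-(1 + ε)) := by
    have : ∀ᵐ x : ℝ, x ≠ 0 := by
      rw [ae_iff]
      simp
    filter_upwards [this] with x hx
    rw [hH, trz_ft hρ (by linarith) hx, Complex.norm_real, Real.norm_eq_abs]
    exact closed_le hρ (by linarith) hx hε hε1
  have hHi : Integrable H := by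
    refine Integrable.mono' (hint.const_mul (8 * ρ ^ (-ε))) hHc.aestronglyMeasurable ?_
    simpa [Real.norm_eq_abs] using hbound
  have hTh : ∀ v : ℝ, Th H v = ((trz ρ v : ℝ) : ℂ) := by
    intro v
    have h1 := congrFun (hTc.fourierInv_fourier_eq hTi hHi) v
    rw [← h1, Real.fourierInv_eq']
    unfold Th
    refine integral_congr_ae (Filter.Eventually.of_forall fun x => ?_)
    simp only [smul_eq_mul, ← hH]
    rw [mul_comm]
    congr 2
    simp only [RCLike.inner_apply, conj_trivial]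
    push_cast
    ring
  refine ⟨H, hHc.measurable, hHi, ?_, ?_, ?_, ?_⟩
  · calc ∫⁻ η, ‖H η‖ₑ ≤ ∫⁻ x : ℝ, ENNReal.ofReal (8 * (1 + |x|) ^ (-(1 + ε))) *
          ENNReal.ofReal (ρ ^ (-ε)) := by
          refine lintegral_mono_ae ?_
          filter_upwards [hbound] with x hx
          rw [← ofReal_norm, ← ENNReal.ofReal_mul (by positivity)]
          refine ENNReal.ofReal_le_ofReal (hx.trans (le_of_eq ?_))
          ring
      _ = _ := by
          rw [lintegral_mul_const _ (by fun_prop)]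
  · intro v hv
    rw [hTh, trz_one hρ hv, Complex.ofReal_one]
  · intro v hv
    rw [hTh, trz_zero hρ hv, Complex.ofReal_zero]
  · intro v
    rw [hTh, Complex.norm_real, Real.norm_eq_abs]
    exact trz_abs hρ v

end Pool.Agent.W22.LS
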