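import Mathlib
import Pool.Agent.W786.Ls.Stm
import Pool.Agent.W22.LS.Main
set_option autoImplicit false

namespace Pool.Agent.W22.LS

open MeasureTheory Set Complex Pool.Agent.W786.Ls
open scoped ENNReal NNReal

lemma tau_pos (t : ℝ) : 0 < tau t := by
  unfold tau
  positivity

lemma cont_FF {m : ℕ} (t : ℝ) (S : Finset (Fin m → ℤ)) (c : (Fin m → ℤ) → ℂ) :
    Continuous (FF t S c) := by
  unfold FF Phi
  fun_prop

lemma ww_le {m : ℕ} (t : ℝ) (lam : Fin m → ℝ) (k : Fin m → ℤ) : ww t lam k ≤ 1 := by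
  unfold ww
  refine Finset.prod_le_one (fun _ _ => (Real.exp_pos _).le) fun j _ => ?_
  rw [Real.exp_le_one_iff]
  have := tau_pos t
  have h : 0 ≤ Real.pi * ((k j : ℝ) / 2 + lam j) ^ 2 / (2 * tau t ^ 2) := by positivity
  have e : -Real.pi * ((k j : ℝ) / 2 + lam j) ^ 2 / (2 * tau t ^ 2) =
    -(Real.pi * ((k j : ℝ) / 2 + lam j) ^ 2 / (2 * tau t ^ 2)) := by ring
  rw [e]
  linarith

lemma cont_ww {m : ℕ} (t : ℝ) (k : Fin m → ℤ) : Continuous fun lam : Fin m → ℝ => ww t lam k := by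
  unfold ww
  fun_prop

lemma gauss_lint {b : ℝ} (hb : 0 < b) : ∫⁻ x : ℝ, ENNReal.ofReal (Real.exp (-b * x ^ 2)) =
    ENNReal.ofReal (Real.sqrt (Real.pi / b)) := by
  rw [← ofReal_integral_eq_lintegral_ofReal (integrable_exp_neg_mul_sq hb)
    (Filter.Eventually.of_forall fun _ => (Real.exp_pos _).le), integral_gaussian]

lemma lint_ww {m : ℕ} (t : ℝ) (k : Fin m → ℤ) :
    ∫⁻ lam : Fin m → ℝ, ENNReal.ofReal (ww t lam k) = ENNReal.ofReal (Real.sqrt 2 * tau t) ^ m := by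
  unfold ww
  have hτ := tau_pos t
  simp only [ENNReal.ofReal_prod_of_nonneg (fun (_ : Fin m) _ => (Real.exp_pos _).le)]
  rw [volume_pi, lint_prod (volume : Measure ℝ) m (fun j x => ENNReal.ofReal
    (Real.exp (-Real.pi * ((k j : ℝ) / 2 + x) ^ 2 / (2 * tau t ^ 2)))) (fun j => by fun_prop)]
  have h : ∀ j : Fin m, ∫⁻ x : ℝ, ENNReal.ofReal
      (Real.exp (-Real.pi * ((k j : ℝ) / 2 + x) ^ 2 / (2 * tau t ^ 2))) =
      ENNReal.ofReal (Real.sqrt 2 * tau t) := by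
    intro j
    rw [lintegral_add_left_eq_self (fun x : ℝ => ENNReal.ofReal
      (Real.exp (-Real.pi * x ^ 2 / (2 * tau t ^ 2)))) ((k j : ℝ) / 2)]
    have h1 := gauss_lint (b := Real.pi / (2 * tau t ^ 2)) (by positivity)
    have h2 : (fun x : ℝ => ENNReal.ofReal (Real.exp (-Real.pi * x ^ 2 / (2 * tau t ^ 2)))) =
        fun x : ℝ => ENNReal.ofReal (Real.exp (-(Real.pi / (2 * tau t ^ 2)) * x ^ 2)) := by
      funext x
      congr 2
      ring
    rw [h2, h1]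
    congr 1
    rw [show Real.pi / (Real.pi / (2 * tau t ^ 2)) = 2 * tau t ^ 2 by
      field_simp, Real.sqrt_mul (by norm_num), Real.sqrt_sq hτ.le]
  rw [Finset.prod_congr rfl fun j _ => h j, Finset.prod_const, Finset.card_univ, Fintype.card_fin]

lemma lint_xi (m : ℕ) : ∫⁻ ξ : Fin m → ℝ, ENNReal.ofReal
    (∏ j, (Real.sqrt 2 * Real.exp (-2 * Real.pi * ξ j ^ 2))) = 1 := by
  simp only [ENNReal.ofReal_prod_of_nonneg (fun (_ : Fin m) _ =>
    mul_nonneg (Real.sqrt_nonneg 2) (Real.exp_pos _).le)]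
  rw [volume_pi, lint_prod (volume : Measure ℝ) m (fun _ x => ENNReal.ofReal
    (Real.sqrt 2 * Real.exp (-2 * Real.pi * x ^ 2))) (fun j => by fun_prop)]
  refine Finset.prod_eq_one fun j _ => ?_
  have h1 := gauss_lint (b := 2 * Real.pi) (by positivity)
  simp only [ENNReal.ofReal_mul (Real.sqrt_nonneg 2)]
  rw [lintegral_const_mul _ (by fun_prop)]
  have h2 : (fun x : ℝ => ENNReal.ofReal (Real.exp (-2 * Real.pi * x ^ 2))) =
      fun x : ℝ => ENNReal.ofReal (Real.exp (-(2 * Real.pi) * x ^ 2)) := by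
    funext x
    congr 2
    ring
  rw [h2, h1, ← ENNReal.ofReal_mul (Real.sqrt_nonneg 2),
    show Real.pi / (2 * Real.pi) = 2⁻¹ by field_simp, Real.sqrt_inv, mul_inv_cancel₀
    (by positivity), ENNReal.ofReal_one]

/-- the window -/
def WD (m : ℕ) (t : ℝ) : Set (Fin m → ℝ) := Set.pi univ (fun _ : Fin m => Ico (0 : ℝ) (tau t))

lemma vol_WD (m : ℕ) (t : ℝ) : volume (WD m t) = ENNReal.ofReal (tau t) ^ m := by
  unfold WD
  rw [volume_pi, Measure.pi_pi]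
  simp

lemma cont_trigbeta {m : ℕ} (t : ℝ) (S : Finset (Fin m → ℤ)) (c : (Fin m → ℤ) → ℂ)
    (lam : Fin m → ℝ) : Continuous fun z : (Fin m → ℝ) × (Fin m → ℝ) =>
      trig S (fun k => c k * beta t lam z.2 k) (fun j => -(2 * t / tau t ^ 2) * z.1 j) := by
  unfold trig ek beta
  fun_prop

/-- Tonelli, abstract form -/
lemma window_abs {α : Type*} [MeasurableSpace α] (μ : Measure α) [SFinite μ]
    (W : Set α) (hW : MeasurableSet W) (Tf : α × α → ℝ≥0∞)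
    (hTm : Measurable Tf) (G : α → ℝ≥0∞) (hGm : Measurable G) (hG1 : ∫⁻ ξ, G ξ ∂μ = 1)
    (e X : ℝ≥0∞) (F : α → ℝ≥0∞) (hF : ∀ s ∈ W, F s ≤ e * ∫⁻ ξ, G ξ * Tf (s, ξ) ∂μ)
    (hX : ∀ ξ, ∫⁻ s in W, Tf (s, ξ) ∂μ ≤ X) : ∫⁻ s in W, F s ∂μ ≤ e * X := by
  have hj : Measurable fun z : α × α => G z.2 * Tf z := (hGm.comp measurable_snd).mul hTm
  calc ∫⁻ s in W, F s ∂μ ≤ ∫⁻ s in W, e * ∫⁻ ξ, G ξ * Tf (s, ξ) ∂μ ∂μ :=
        setLIntegral_mono' hW hF
    _ = e * ∫⁻ ξ, (∫⁻ s in W, G ξ * Tf (s, ξ) ∂μ) ∂μ := by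
        rw [lintegral_const_mul _ (Measurable.lintegral_prod_right' hj)]
        rw [lintegral_lintegral_swap]
        exact hj.aemeasurable
    _ ≤ e * ∫⁻ ξ, G ξ * X ∂μ := by
        gcongr with ξ
        have hm3 : Measurable fun s => Tf (s, ξ) := hTm.comp measurable_prodMk_right
        rw [lintegral_const_mul _ hm3]
        gcongr
        exact hX ξ
    _ = _ := by
        rw [lintegral_mul_const _ hGm, hG1, one_mul]

/-- the sum over one window, averaged -/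
lemma window {m : ℕ} (hG2 : Gau2Stm) {q : ℝ} (hq : 1 ≤ q) (t : ℝ) (S : Finset (Fin m → ℤ))
    (c : (Fin m → ℤ) → ℂ) (lam : Fin m → ℝ) (X : ℝ≥0∞)
    (hX : ∀ ξ : Fin m → ℝ, ∫⁻ s in WD m t,
      ‖trig S (fun k => c k * beta t lam ξ k) (fun j => -(2 * t / tau t ^ 2) * s j)‖ₑ ^ q ≤ X) :
    ∫⁻ s in WD m t, ‖FF t S c (fun j => lam j + s j)‖ₑ ^ q ≤
      ENNReal.ofReal (Real.exp (Real.pi * m * q)) * X := by
  have hGm : Measurable fun ξ : Fin m → ℝ => ENNReal.ofReal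
      (∏ j, (Real.sqrt 2 * Real.exp (-2 * Real.pi * ξ j ^ 2))) := by
    have : Continuous fun ξ : Fin m → ℝ =>
      ∏ j, (Real.sqrt 2 * Real.exp (-2 * Real.pi * ξ j ^ 2)) := by fun_prop
    exact this.measurable.ennreal_ofReal
  have hTm : Measurable fun z : (Fin m → ℝ) × (Fin m → ℝ) =>
      ‖trig S (fun k => c k * beta t lam z.2 k) (fun j => -(2 * t / tau t ^ 2) * z.1 j)‖ₑ ^ q :=
    ((cont_trigbeta t S c lam).measurable.enorm).pow_const q
  have hmW : MeasurableSet (WD m t) := MeasurableSet.univ_pi fun _ => measurableSet_Ico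
  refine window_abs volume (WD m t) hmW _ hTm _ hGm (lint_xi m) _ X _ (fun s hs => ?_) hX
  refine hG2 m q t S c lam s hq fun j => ?_
  have h := hs j (mem_univ j)
  rw [abs_of_nonneg h.1]
  exact h.2.le

/-- averaging over the windows -/
lemma averaging {m : ℕ} {q : ℝ} (t : ℝ) (S : Finset (Fin m → ℤ)) (c : (Fin m → ℤ) → ℂ) :
    ENNReal.ofReal (tau t) ^ m * ∫⁻ y : Fin m → ℝ, ‖FF t S c y‖ₑ ^ q =
      ∫⁻ lam : Fin m → ℝ, (∫⁻ s in WD m t, ‖FF t S c (fun j => lam j + s j)‖ₑ ^ q) := by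
  have hm : Measurable fun z : (Fin m → ℝ) × (Fin m → ℝ) =>
      ‖FF t S c (fun j => z.1 j + z.2 j)‖ₑ ^ q := by
    have h1 : Continuous fun z : (Fin m → ℝ) × (Fin m → ℝ) => (fun j => z.1 j + z.2 j : Fin m → ℝ) := by
      fun_prop
    exact (((cont_FF t S c).comp h1).measurable.enorm).pow_const q
  rw [lintegral_lintegral_swap hm.aemeasurable]
  have h : ∀ s : Fin m → ℝ, ∫⁻ lam : Fin m → ℝ, ‖FF t S c (fun j => lam j + s j)‖ₑ ^ q =
      ∫⁻ y : Fin m → ℝ, ‖FF t S c y‖ₑ ^ q := fun s =>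
    lintegral_add_right_eq_self (μ := (volume : Measure (Fin m → ℝ)))
      (fun y => ‖FF t S c y‖ₑ ^ q) s
  simp only [h]
  rw [lintegral_const, Measure.restrict_apply_univ, vol_WD, mul_comm]

/-- the integral of the weights -/
lemma weights {m : ℕ} {q : ℝ} (hq : 2 ≤ q) (t : ℝ) (S : Finset (Fin m → ℤ))
    (c : (Fin m → ℤ) → ℂ) :
    ∫⁻ lam : Fin m → ℝ, (∑ k ∈ S, ‖c k‖ₑ ^ 2 * ENNReal.ofReal (ww t lam k)) ^ (q / 2) ≤
      (∑ k ∈ S, ‖c k‖ₑ ^ 2) ^ (q / 2) * ENNReal.ofReal (Real.sqrt 2 * tau t) ^ m := by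
  set A : ℝ≥0∞ := ∑ k ∈ S, ‖c k‖ₑ ^ 2 with hA
  have hm : ∀ k, Measurable fun lam : Fin m → ℝ => ENNReal.ofReal (ww t lam k) := fun k =>
    (cont_ww t k).measurable.ennreal_ofReal
  have hsplit : ∀ x : ℝ≥0∞, x ^ (q / 2) = x ^ (q / 2 - 1) * x := by
    intro x
    nth_rw 3 [← ENNReal.rpow_one x]
    rw [← ENNReal.rpow_add_of_nonneg _ _ (by linarith) zero_le_one]
    congr 1
    ring
  calc _ ≤ ∫⁻ lam : Fin m → ℝ, A ^ (q / 2 - 1) *
        (∑ k ∈ S, ‖c k‖ₑ ^ 2 * ENNReal.ofReal (ww t lam k)) := by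
        refine lintegral_mono fun lam => ?_
        simp only
        rw [hsplit]
        refine mul_le_mul' (ENNReal.rpow_le_rpow ?_ (by linarith)) le_rfl
        rw [hA]
        refine Finset.sum_le_sum fun k _ => ?_
        calc ‖c k‖ₑ ^ 2 * ENNReal.ofReal (ww t lam k) ≤ ‖c k‖ₑ ^ 2 * 1 := by
              gcongr
              rw [← ENNReal.ofReal_one]
              exact ENNReal.ofReal_le_ofReal (ww_le t lam k)
          _ = _ := mul_one _
    _ = A ^ (q / 2 - 1) * ∑ k ∈ S, ‖c k‖ₑ ^ 2 * ENNReal.ofReal (Real.sqrt 2 * tau t) ^ m := by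
        rw [lintegral_const_mul _ (Finset.measurable_sum _ fun k _ => (hm k).const_mul _),
          lintegral_finsetSum _ fun k _ => (hm k).const_mul _]
        congr 1
        refine Finset.sum_congr rfl fun k _ => ?_
        rw [lintegral_const_mul _ (hm k), lint_ww]
    _ = _ := by
        rw [← Finset.sum_mul, ← mul_assoc, ← hA, ← hsplit]

lemma power_bound (m : ℕ) {q δ t : ℝ} (hq : 2 ≤ q) (ht : 1 ≤ |t|) :
    ENNReal.ofReal ((1 + 4 * t ^ 2) ^ (-(m : ℝ) / 4)) ^ q * (ENNReal.ofReal (|t| ^ m) *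
      ENNReal.ofReal (|t| ^ δ) ^ q) ≤ ENNReal.ofReal (|t| ^ (δ - m * (1 / 2 - 1 / q))) ^ q := by
  have ht0 : 0 < |t| := by linarith
  have hq0 : 0 < q := by linarith
  have h1 : (0 : ℝ) < (1 + 4 * t ^ 2) ^ (-(m : ℝ) / 4) := Real.rpow_pos_of_pos (by positivity) _
  rw [ENNReal.ofReal_rpow_of_pos h1, ENNReal.ofReal_rpow_of_pos (Real.rpow_pos_of_pos ht0 _),
    ENNReal.ofReal_rpow_of_pos (Real.rpow_pos_of_pos ht0 _), ← ENNReal.ofReal_mul (by positivity),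
    ← ENNReal.ofReal_mul (by positivity)]
  refine ENNReal.ofReal_le_ofReal ?_
  have h2 : (1 + 4 * t ^ 2) ^ (-(m : ℝ) / 4) ≤ |t| ^ (-(m : ℝ) / 2) := by
    have e1 : |t| ^ (-(m : ℝ) / 2) = (|t| ^ 2) ^ (-(m : ℝ) / 4) := by
      rw [← Real.rpow_natCast |t| 2, ← Real.rpow_mul ht0.le]
      congr 1
      push_cast
      ring
    rw [e1]
    refine Real.rpow_le_rpow_of_nonpos (by positivity) (by rw [sq_abs]; nlinarith [sq_nonneg t]) ?_
    have : (0 : ℝ) ≤ m := Nat.cast_nonneg m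
    linarith
  calc ((1 + 4 * t ^ 2) ^ (-(m : ℝ) / 4)) ^ q * (|t| ^ m * (|t| ^ δ) ^ q) ≤
        (|t| ^ (-(m : ℝ) / 2)) ^ q * (|t| ^ m * (|t| ^ δ) ^ q) := by gcongr
    _ = _ := by
        rw [← Real.rpow_natCast |t| m, ← Real.rpow_mul ht0.le, ← Real.rpow_mul ht0.le,
          ← Real.rpow_mul ht0.le, ← Real.rpow_add ht0, ← Real.rpow_add ht0]
        congr 1
        field_simp
        ring

theorem gau4 : Gau4Stm := by
  intro hG1 hG2 hG3 m q δ hq hδ0 hδ1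
  have hq0 : 0 < q := by linarith
  obtain ⟨C, hC⟩ := hG3 m q δ hq hδ0 hδ1
  set E : ℝ≥0 := (Real.exp (Real.pi * m)).toNNReal * (Real.sqrt 2).toNNReal ^ m with hE
  refine ⟨E * C, fun Λ K hK t ht S c hS a => ?_⟩
  have hτ := tau_pos t
  set c' : (Fin m → ℤ) → ℂ := fun k => c k * ek k a with hc'
  have hcn : ∀ k, ‖c' k‖ₑ = ‖c k‖ₑ := by
    intro k
    rw [hc', enorm_mul, ← ofReal_norm (ek k a), norm_ek, ENNReal.ofReal_one, mul_one]
  set A : ℝ≥0∞ := ∑ k ∈ S, ‖c k‖ₑ ^ 2 with hA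
  set Y : ℝ≥0∞ := (C * K * ENNReal.ofReal (|t| ^ δ)) ^ q with hY
  set II : ℝ≥0∞ := ∫⁻ y : Fin m → ℝ, ‖FF t S c' y‖ₑ ^ q with hII
  have hI : ENNReal.ofReal (tau t) ^ m * II ≤ ENNReal.ofReal (tau t) ^ m *
      (ENNReal.ofReal (Real.exp (Real.pi * m * q)) * (ENNReal.ofReal (|t| ^ m) * Y *
        (A ^ (q / 2) * ENNReal.ofReal (Real.sqrt 2) ^ m))) := by
    rw [hII, averaging]
    calc _ ≤ ∫⁻ lam : Fin m → ℝ, ENNReal.ofReal (Real.exp (Real.pi * m * q)) *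
          (ENNReal.ofReal (|t| ^ m) * Y *
            (∑ k ∈ S, ‖c' k‖ₑ ^ 2 * ENNReal.ofReal (ww t lam k)) ^ (q / 2)) := by
          refine lintegral_mono fun lam => ?_
          exact window hG2 (by linarith) t S c' lam _ fun ξ => hC Λ K hK t ht S c' hS lam ξ
      _ = ENNReal.ofReal (Real.exp (Real.pi * m * q)) * (ENNReal.ofReal (|t| ^ m) * Y *
            ∫⁻ lam : Fin m → ℝ,
              (∑ k ∈ S, ‖c' k‖ₑ ^ 2 * ENNReal.ofReal (ww t lam k)) ^ (q / 2)) := by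
          have hm : Measurable fun lam : Fin m → ℝ =>
              (∑ k ∈ S, ‖c' k‖ₑ ^ 2 * ENNReal.ofReal (ww t lam k)) ^ (q / 2) :=
            (Finset.measurable_sum _ fun k _ =>
              ((cont_ww t k).measurable.ennreal_ofReal).const_mul _).pow_const _
          rw [lintegral_const_mul _ (hm.const_mul _), lintegral_const_mul _ hm]
      _ ≤ ENNReal.ofReal (Real.exp (Real.pi * m * q)) * (ENNReal.ofReal (|t| ^ m) * Y *
            (A ^ (q / 2) * ENNReal.ofReal (Real.sqrt 2 * tau t) ^ m)) := by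
          gcongr
          have h := weights hq t S c'
          simp only [hcn] at h ⊢
          exact h
      _ = _ := by
          rw [ENNReal.ofReal_mul (Real.sqrt_nonneg 2), mul_pow]
          ring
  have hI2 : II ≤ ENNReal.ofReal (Real.exp (Real.pi * m * q)) * (ENNReal.ofReal (|t| ^ m) * Y *
        (A ^ (q / 2) * ENNReal.ofReal (Real.sqrt 2) ^ m)) := by
    have h0 : ENNReal.ofReal (tau t) ^ m ≠ 0 := by
      refine pow_ne_zero _ ?_
      rw [Ne, ENNReal.ofReal_eq_zero, not_le]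
      exact hτ
    have h1 : ENNReal.ofReal (tau t) ^ m ≠ ∞ := ENNReal.pow_ne_top ENNReal.ofReal_ne_top
    exact (ENNReal.mul_le_mul_iff_right h0 h1).mp hI
  have hGG : ∫⁻ y : Fin m → ℝ, ‖GG t a S c y‖ₑ ^ q =
      ENNReal.ofReal ((1 + 4 * t ^ 2) ^ (-(m : ℝ) / 4)) ^ q * II := by
    have h1 : ∀ y : Fin m → ℝ, ‖GG t a S c y‖ₑ ^ q =
        ENNReal.ofReal ((1 + 4 * t ^ 2) ^ (-(m : ℝ) / 4)) ^ q *
          ‖FF t S c' (fun j => y j + 2 * a j * t)‖ₑ ^ q := by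
      intro y
      rw [← ofReal_norm, hG1, ENNReal.ofReal_mul (by positivity), ofReal_norm,
        ENNReal.mul_rpow_of_nonneg _ _ hq0.le]
    simp only [h1]
    have hm : Measurable fun y : Fin m → ℝ => ‖FF t S c' (fun j => y j + 2 * a j * t)‖ₑ ^ q := by
      have h2 : Continuous fun y : Fin m → ℝ => (fun j => y j + 2 * a j * t : Fin m → ℝ) := by
        fun_prop
      exact (((cont_FF t S c').comp h2).measurable.enorm).pow_const q
    rw [lintegral_const_mul _ hm]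
    congr 1
    exact lintegral_add_right_eq_self (μ := (volume : Measure (Fin m → ℝ)))
      (fun y => ‖FF t S c' y‖ₑ ^ q) (fun j => 2 * a j * t)
  rw [hGG]
  have hEq : ENNReal.ofReal (Real.exp (Real.pi * m * q)) * ENNReal.ofReal (Real.sqrt 2) ^ m ≤
      (E : ℝ≥0∞) ^ q := by
    rw [hE]
    push_cast
    rw [ENNReal.mul_rpow_of_nonneg _ _ hq0.le]
    have e1 : ENNReal.ofReal (Real.exp (Real.pi * m * q)) =
        ((Real.exp (Real.pi * m)).toNNReal : ℝ≥0∞) ^ q := by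
      change _ = ENNReal.ofReal (Real.exp (Real.pi * m)) ^ q
      rw [ENNReal.ofReal_rpow_of_pos (Real.exp_pos _), ← Real.exp_mul]
    rw [e1]
    gcongr
    change ENNReal.ofReal (Real.sqrt 2) ^ m ≤ (ENNReal.ofReal (Real.sqrt 2) ^ m) ^ q
    have h1 : 1 ≤ ENNReal.ofReal (Real.sqrt 2) ^ m := by
      refine one_le_pow₀ ?_
      rw [← ENNReal.ofReal_one]
      exact ENNReal.ofReal_le_ofReal (Real.one_le_sqrt.mpr (by norm_num))
    calc ENNReal.ofReal (Real.sqrt 2) ^ m = (ENNReal.ofReal (Real.sqrt 2) ^ m) ^ (1 : ℝ) :=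
          (ENNReal.rpow_one _).symm
      _ ≤ _ := ENNReal.rpow_le_rpow_of_exponent_le h1 (by linarith)
  have hl2 : A ^ (q / 2) = l2 S c ^ q := by
    unfold l2
    rw [← ENNReal.rpow_mul]
    congr 1
    ring
  calc _ ≤ ENNReal.ofReal ((1 + 4 * t ^ 2) ^ (-(m : ℝ) / 4)) ^ q *
        (ENNReal.ofReal (Real.exp (Real.pi * m * q)) * (ENNReal.ofReal (|t| ^ m) * Y *
        (A ^ (q / 2) * ENNReal.ofReal (Real.sqrt 2) ^ m))) := by gcongr
    _ = (ENNReal.ofReal (Real.exp (Real.pi * m * q)) * ENNReal.ofReal (Real.sqrt 2) ^ m) *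
        ((C : ℝ≥0∞) * K) ^ q * (ENNReal.ofReal ((1 + 4 * t ^ 2) ^ (-(m : ℝ) / 4)) ^ q *
          (ENNReal.ofReal (|t| ^ m) * ENNReal.ofReal (|t| ^ δ) ^ q)) * A ^ (q / 2) := by
        rw [hY, ENNReal.mul_rpow_of_nonneg _ _ hq0.le]
        ring
    _ ≤ (E : ℝ≥0∞) ^ q * ((C : ℝ≥0∞) * K) ^ q *
        ENNReal.ofReal (|t| ^ (δ - m * (1 / 2 - 1 / q))) ^ q * l2 S c ^ q := by
        rw [hl2]
        gcongr
        exact power_bound m hq ht
    _ = _ := by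
        rw [← ENNReal.mul_rpow_of_nonneg _ _ hq0.le, ← ENNReal.mul_rpow_of_nonneg _ _ hq0.le,
          ← ENNReal.mul_rpow_of_nonneg _ _ hq0.le, ENNReal.coe_mul E C, mul_assoc (E : ℝ≥0∞) C K]

end Pool.Agent.W22.LS
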